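import Pool.Agent.Y105.RS.StmC

/-!
# From words to random stirring in continuous time, with weights (S_POIW), project RS of helper105
-/

set_option autoImplicit false

namespace Pool.Agent.Y941.RS

open Finset Equiv NormedSpace
open Pool.Agent.Y105.RS
open Pool.Agent.TH268.PD (law)
open Pool.Agent.TH268.PD.NI (hs_exp)
open Pool.Agent.W32.LR Pool.Agent.W29.LR.CV
open Pool.Agent.W805.LR (stirMass)

variable {V : Type} [Fintype V] [DecidableEq V]

/-! ### means over words -/

omit [DecidableEq V] in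
theorem mean_succ (p : V → V → ℝ) {M : ℕ} (F : (Fin (M + 1) → Lt V) → ℝ) :
    mean p (M + 1) F = ∑ l : Lt V, p l.1.1 l.1.2 / 2 *
      mean p M (fun w => F (Fin.cons l w : Fin (M + 1) → Lt V)) := by
  unfold mean
  rw [← (Fin.consEquiv (fun _ : Fin (M + 1) => Lt V)).sum_comp, Fintype.sum_prod_type]
  refine Finset.sum_congr rfl fun l _ => ?_
  rw [Finset.mul_sum]
  refine Finset.sum_congr rfl fun w _ => ?_
  have h1 : (Fin.consEquiv (fun _ : Fin (M + 1) => Lt V)) (l, w) =
      (Fin.cons l w : Fin (M + 1) → Lt V) := rfl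
  rw [h1, Fin.prod_univ_succ, Fin.cons_zero]
  simp only [Fin.cons_succ]
  ring

omit [Fintype V] in
theorem wp_cons {M : ℕ} (l : Lt V) (w : Fin M → Lt V) :
    wp (Fin.cons l w : Fin (M + 1) → Lt V) = st l * wp w := by
  unfold wp
  rw [List.ofFn_succ, List.prod_cons]
  simp only [Fin.cons_zero, Fin.cons_succ]

/-- the operator of a random letter -/
noncomputable def OL (p : V → V → ℝ) : (Perm V → ℝ) →L[ℝ] (Perm V → ℝ) :=
  ∑ l : Lt V, (p l.1.1 l.1.2 / 2) • Rt (st l)

lemma OL_apply (p : V → V → ℝ) (F : Perm V → ℝ) (g : Perm V) :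
    OL p F g = ∑ l : Lt V, p l.1.1 l.1.2 / 2 * F (g * st l) := by
  simp only [OL, _root_.sum_apply, Finset.sum_apply,
    _root_.smul_apply, Pi.smul_apply, smul_eq_mul, Rt_apply]

lemma OL_pow (p : V → V → ℝ) (F : Perm V → ℝ) (M : ℕ) :
    ∀ g, ((OL p) ^ M) F g = mean p M (fun w => F (g * wp w)) := by
  induction M with
  | zero =>
    intro g
    unfold mean
    simp [wp]
  | succ M ih =>
    intro g
    rw [pow_succ']
    show OL p (((OL p) ^ M) F) g = _
    rw [OL_apply, mean_succ]
    refine Finset.sum_congr rfl fun l _ => ?_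
    rw [ih]
    simp only [wp_cons, mul_assoc]

lemma OL_exp_hasSum (p : V → V → ℝ) (s : ℝ) (F : Perm V → ℝ) :
    HasSum (fun m : ℕ => s ^ m / (m.factorial : ℝ) * mean p m (fun w => F (wp w)))
      ((exp (s • OL p)) F 1) := by
  have h1 : HasSum (fun m : ℕ => ((m.factorial : ℝ)⁻¹) • (s • OL p) ^ m) (exp (s • OL p)) := by
    have := (expSeries_summable' (𝕂 := ℝ) (s • OL p)).hasSum
    rwa [← congrFun (exp_eq_tsum (𝔸 := (Perm V → ℝ) →L[ℝ] (Perm V → ℝ)) ℝ) (s • OL p)] at this
  have h2 := (evg F 1).hasSum h1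
  have h3 : (fun m : ℕ => s ^ m / (m.factorial : ℝ) * mean p m (fun w => F (wp w)))
      = fun m : ℕ => (evg F 1) (((m.factorial : ℝ)⁻¹) • (s • OL p) ^ m) := by
    funext m
    rw [smul_pow, map_smul, map_smul]
    simp only [smul_eq_mul]
    change _ = ((m.factorial : ℝ))⁻¹ * (s ^ m * ((OL p) ^ m) F 1)
    rw [OL_pow]
    simp only [one_mul]
    ring
  rw [h3]
  exact h2

/-! ### the rates -/

section rates

variable (J : V → V → ℝ) (D : ℝ)

/-- the probabilities -/
noncomputable def pp (x y : V) : ℝ := J x y / (D * Fintype.card V)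

omit [DecidableEq V] in
lemma sum_pp [Nonempty V] (hJ : ∀ x, ∑ y, J x y = D) (hD : 0 < D) :
    ∑ x, ∑ y, pp J D x y = 1 := by
  have hn : (0 : ℝ) < Fintype.card V := by exact_mod_cast Fintype.card_pos
  unfold pp
  simp only [← Finset.sum_div]
  rw [Finset.sum_congr rfl fun x _ => hJ x, Finset.sum_const, Finset.card_univ, nsmul_eq_mul,
    mul_comm, div_self (by positivity)]

omit [DecidableEq V] in
lemma sum_letters (p : V → V → ℝ) (G : Lt V → ℝ) :
    ∑ l : Lt V, p l.1.1 l.1.2 / 2 * G l =
      ∑ x, ∑ y, (p x y / 2 * G ((x, y), true) + p x y / 2 * G ((x, y), false)) := by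
  rw [Fintype.sum_prod_type, Fintype.sum_prod_type]
  refine Finset.sum_congr rfl fun x _ => Finset.sum_congr rfl fun y _ => ?_
  rw [Fintype.sum_bool]

lemma gen_eq [Nonempty V] (hJ : ∀ x, ∑ y, J x y = D) (hD : 0 < D) :
    gen J = (D * Fintype.card V) • OL (pp J D) - (D * Fintype.card V / 2) • 1 := by
  have hn : (0 : ℝ) < Fintype.card V := by exact_mod_cast Fintype.card_pos
  have hDn : D * Fintype.card V ≠ 0 := by positivity
  ext F g
  have e1 : (gen J) F g = ∑ x, ∑ y, (J x y / 2) * F (g * swap x y) := by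
    simp only [gen, _root_.sum_apply, Finset.sum_apply,
      _root_.smul_apply, Pi.smul_apply, smul_eq_mul, Rt_apply]
  have e2 : ((D * Fintype.card V) • OL (pp J D) -
      (D * Fintype.card V / 2) • (1 : (Perm V → ℝ) →L[ℝ] (Perm V → ℝ))) F g =
      (D * Fintype.card V) * OL (pp J D) F g - (D * Fintype.card V / 2) * F g := rfl
  rw [e1, e2, OL_apply, sum_letters]
  simp only [Finset.sum_add_distrib]
  have e3 : ∑ x, ∑ y, pp J D x y / 2 * F (g * st ((x, y), false)) = 1 / 2 * F g := by
    have : ∀ x y, pp J D x y / 2 * F (g * st ((x, y), false)) = pp J D x y * (1 / 2 * F g) := by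
      intro x y
      have : (st ((x, y), false) : Perm V) = 1 := rfl
      rw [this, mul_one]
      ring
    simp only [this, ← Finset.sum_mul]
    rw [sum_pp J D hJ hD, one_mul]
  have e4 : (D * Fintype.card V) * ∑ x, ∑ y, pp J D x y / 2 * F (g * st ((x, y), true)) =
      ∑ x, ∑ y, (J x y / 2) * F (g * swap x y) := by
    rw [Finset.mul_sum]
    refine Finset.sum_congr rfl fun x _ => ?_
    rw [Finset.mul_sum]
    refine Finset.sum_congr rfl fun y _ => ?_
    have : (st ((x, y), true) : Perm V) = swap x y := rfl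
    rw [this]
    unfold pp
    field_simp
  rw [e3, mul_add, e4]
  ring

lemma stir_sum [Nonempty V] (hJ : ∀ x, ∑ y, J x y = D) (hD : 0 < D) (t : ℝ) (F : Perm V → ℝ) :
    ∑ g, stirMass J t g * F g = Real.exp (-(t * (D * Fintype.card V / 2))) *
      (exp ((t * (D * Fintype.card V)) • OL (pp J D))) F 1 := by
  rw [sum_stirMass]
  have h1 : t • gen J = algebraMap ℝ ((Perm V → ℝ) →L[ℝ] (Perm V → ℝ))
      (-(t * (D * Fintype.card V / 2))) + (t * (D * Fintype.card V)) • OL (pp J D) := by
    rw [gen_eq J D hJ hD, smul_sub, smul_smul, smul_smul, Algebra.algebraMap_eq_smul_one, neg_smul]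
    abel
  let _ : NormedAlgebra ℚ ((Perm V → ℝ) →L[ℝ] (Perm V → ℝ)) :=
    NormedAlgebra.restrictScalars ℚ ℝ _
  rw [h1, exp_add_of_commute (Algebra.commutes _ _), ← algebraMap_exp_comm,
    Algebra.algebraMap_eq_smul_one, ← Real.exp_eq_exp_ℝ]
  rfl

omit [DecidableEq V] in
lemma mean_const [Nonempty V] (hJ : ∀ x, ∑ y, J x y = D) (hD : 0 < D) (M : ℕ) (c : ℝ) :
    mean (pp J D) M (fun _ => c) = c := by
  induction M with
  | zero => unfold mean; simp
  | succ M ih =>
    rw [mean_succ]
    simp only [ih]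
    rw [sum_letters (pp J D) (fun _ => c)]
    have : ∀ x y, pp J D x y / 2 * c + pp J D x y / 2 * c = pp J D x y * c := by
      intro x y; ring
    simp only [this, ← Finset.sum_mul]
    rw [sum_pp J D hJ hD, one_mul]

omit [DecidableEq V] in
lemma mean_mono (hJ0 : ∀ x y, 0 ≤ J x y) (hD : 0 < D) (M : ℕ) (F G : (Fin M → Lt V) → ℝ)
    (h : ∀ w, F w ≤ G w) : mean (pp J D) M F ≤ mean (pp J D) M G := by
  unfold mean
  refine Finset.sum_le_sum fun w _ => mul_le_mul_of_nonneg_left (h w) ?_
  refine Finset.prod_nonneg fun i _ => ?_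
  unfold pp
  have := hJ0 (w i).1.1 (w i).1.2
  positivity

lemma law_sum [Nonempty V] (hJ : ∀ x, ∑ y, J x y = D) (hD : 0 < D) (t : ℝ) (F : Perm V → ℝ) :
    HasSum (fun M : ℕ => Real.exp (-(t * (D * Fintype.card V))) *
      ((t * (D * Fintype.card V)) ^ M / (M.factorial : ℝ)) *
        mean (pp J D) M (fun w => F (wp w))) (∑ g, law J t g * F g) := by
  set lam := t * (D * Fintype.card V) with hlam
  have h1 : ∑ g, stirMass J t g = Real.exp (-(t * (D * Fintype.card V / 2))) * Real.exp lam := by
    have h2 := stir_sum J D hJ hD t (fun _ => 1)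
    simp only [mul_one] at h2
    rw [h2]
    congr 1
    have h3 := OL_exp_hasSum (pp J D) lam (fun _ => 1)
    simp only [mean_const J D hJ hD, mul_one] at h3
    exact h3.unique (hs_exp lam)
  have h2 : ∑ g, law J t g * F g = Real.exp (-lam) * (exp (lam • OL (pp J D))) F 1 := by
    have h3 : ∑ g, law J t g * F g = (∑ g, stirMass J t g * F g) / ∑ g, stirMass J t g := by
      rw [Finset.sum_div]
      exact Finset.sum_congr rfl fun g _ => by unfold law; ring
    have h6 := stir_sum J D hJ hD t F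
    rw [← hlam] at h6
    rw [h3, h1, h6, Real.exp_neg lam]
    have h4 := Real.exp_pos lam
    have h5 := Real.exp_pos (-(t * (D * Fintype.card V / 2)))
    generalize (exp (lam • OL (pp J D))) F 1 = X
    generalize Real.exp (-(t * (D * Fintype.card V / 2))) = Y at h5 ⊢
    field_simp
  rw [h2]
  refine ((OL_exp_hasSum (pp J D) lam F).mul_left (Real.exp (-lam))).congr_fun ?_
  intro M
  ring

end rates

theorem poiw : S_POIW := by
  intro V _ _ _ J D t Θ F C c η b hJ0 hJ hD ht hF hc hη hb hΘ1 hΘ2 hmean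
  have hn : (0 : ℝ) < Fintype.card V := by exact_mod_cast Fintype.card_pos
  have hC : 0 ≤ C := (abs_nonneg c).trans hc
  set lam := t * (D * Fintype.card V) with hlam
  have hlam0 : 0 < lam := by positivity
  set a : ℕ → ℝ := fun M => Real.exp (-lam) * (lam ^ M / (M.factorial : ℝ)) with ha
  have ha0 : ∀ M, 0 ≤ a M := fun M => by simp only [ha]; positivity
  have hA := law_sum J D hJ hD t (fun g => Θ g * (F g - c))
  have hB := law_sum J D hJ hD t Θ
  set A := ∑ g, law J t g * (Θ g * (F g - c)) with hAdef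
  set B := ∑ g, law J t g * Θ g with hBdef
  -- the total weight
  have hsum : HasSum a 1 := by
    have := (hs_exp lam).mul_left (Real.exp (-lam))
    rwa [← Real.exp_add, neg_add_cancel, Real.exp_zero] at this
  have hBlow : Real.exp (-b) ≤ B := by
    have h1 : HasSum (fun M => a M * Real.exp (-b)) (1 * Real.exp (-b)) := hsum.mul_right _
    rw [one_mul] at h1
    refine hasSum_le (fun M => ?_) h1 hB
    refine mul_le_mul_of_nonneg_left ?_ (ha0 M)
    calc Real.exp (-b) = mean (pp J D) M (fun _ => Real.exp (-b)) :=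
          (mean_const J D hJ hD M _).symm
      _ ≤ _ := mean_mono J D hJ0 hD M _ _ fun w => hΘ1 _
  -- few letters
  have hfew : HasSum (fun M : ℕ => a M * (2 : ℝ) ^ (lam / 2 - M))
      (Real.exp (-lam) * ((2 : ℝ) ^ (lam / 2) * Real.exp (lam / 2))) := by
    have h1 := ((hs_exp (lam / 2)).mul_left ((2 : ℝ) ^ (lam / 2))).mul_left (Real.exp (-lam))
    refine h1.congr_fun ?_
    intro M
    simp only [ha]
    rw [Real.rpow_sub (by norm_num), Real.rpow_natCast, div_pow]
    field_simp
  have hsmall : Real.exp (-lam) * ((2 : ℝ) ^ (lam / 2) * Real.exp (lam / 2)) ≤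
      Real.exp (-(lam / 10)) := by
    rw [Real.rpow_def_of_pos (by norm_num), ← Real.exp_add, ← Real.exp_add, Real.exp_le_exp]
    have := Real.log_two_lt_d9
    nlinarith
  -- the terms
  have hterm : ∀ M : ℕ, |mean (pp J D) M (fun w => Θ (wp w) * (F (wp w) - c))| ≤
      η * mean (pp J D) M (fun w => Θ (wp w)) +
        2 * C * Real.exp b * (2 : ℝ) ^ (lam / 2 - M) := by
    intro M
    have hm0 : 0 ≤ mean (pp J D) M (fun w => Θ (wp w)) := by
      calc (0:ℝ) = mean (pp J D) M (fun _ => 0) := (mean_const J D hJ hD M _).symm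
        _ ≤ _ := mean_mono J D hJ0 hD M _ _ fun w => (Real.exp_pos _).le.trans (hΘ1 _)
    by_cases hM : t * D * Fintype.card V / 2 ≤ M
    · have := hmean M hM
      have h2 : 0 ≤ 2 * C * Real.exp b * (2 : ℝ) ^ (lam / 2 - M) := by positivity
      exact this.trans (by
        show η * mean (pp J D) M (fun w => Θ (wp w)) ≤ _
        linarith)
    · have hM' : (M : ℝ) < lam / 2 := by
        rw [hlam]
        push Not at hM
        linarith
      have h1 : (1 : ℝ) ≤ (2 : ℝ) ^ (lam / 2 - M) :=
        Real.one_le_rpow (by norm_num) (by linarith)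
      have hbd : ∀ g, |Θ g * (F g - c)| ≤ 2 * C * Real.exp b := by
        intro g
        rw [abs_mul, abs_of_nonneg ((Real.exp_pos _).le.trans (hΘ1 g))]
        have h3 : |F g - c| ≤ 2 * C := by
          calc |F g - c| ≤ |F g| + |c| := abs_sub _ _
            _ ≤ 2 * C := by linarith [hF g]
        calc Θ g * |F g - c| ≤ Real.exp b * (2 * C) :=
              mul_le_mul (hΘ2 g) h3 (abs_nonneg _) (Real.exp_pos _).le
          _ = _ := by ring
      have h4 : |mean (pp J D) M (fun w => Θ (wp w) * (F (wp w) - c))| ≤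
          2 * C * Real.exp b := by
        rw [abs_le]
        constructor
        · calc -(2 * C * Real.exp b) = mean (pp J D) M (fun _ => -(2 * C * Real.exp b)) :=
                (mean_const J D hJ hD M _).symm
            _ ≤ _ := mean_mono J D hJ0 hD M _ _ fun w => (abs_le.mp (hbd _)).1
        · calc _ ≤ mean (pp J D) M (fun _ => 2 * C * Real.exp b) :=
                mean_mono J D hJ0 hD M _ _ fun w => (abs_le.mp (hbd _)).2
            _ = _ := mean_const J D hJ hD M _
      have h5 : 0 ≤ η * mean (pp J D) M (fun w => Θ (wp w)) := mul_nonneg hη hm0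
      have h6 : 2 * C * Real.exp b ≤ 2 * C * Real.exp b * (2 : ℝ) ^ (lam / 2 - M) :=
        le_mul_of_one_le_right (by positivity) h1
      linarith
  have hR : HasSum (fun M : ℕ => η * (a M * mean (pp J D) M (fun w => Θ (wp w))) +
      2 * C * Real.exp b * (a M * (2 : ℝ) ^ (lam / 2 - M)))
      (η * B + 2 * C * Real.exp b *
        (Real.exp (-lam) * ((2 : ℝ) ^ (lam / 2) * Real.exp (lam / 2)))) :=
    (hB.mul_left η).add (hfew.mul_left _)
  have hle : ∀ M, |a M * mean (pp J D) M (fun w => Θ (wp w) * (F (wp w) - c))| ≤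
      η * (a M * mean (pp J D) M (fun w => Θ (wp w))) +
      2 * C * Real.exp b * (a M * (2 : ℝ) ^ (lam / 2 - M)) := by
    intro M
    rw [abs_mul, abs_of_nonneg (ha0 M)]
    calc _ ≤ a M * (η * mean (pp J D) M (fun w => Θ (wp w)) +
        2 * C * Real.exp b * (2 : ℝ) ^ (lam / 2 - M)) :=
          mul_le_mul_of_nonneg_left (hterm M) (ha0 M)
      _ = _ := by ring
  have h1 : |A| ≤ η * B + 2 * C * Real.exp b *
        (Real.exp (-lam) * ((2 : ℝ) ^ (lam / 2) * Real.exp (lam / 2))) := by
    rw [abs_le]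
    constructor
    · have := hasSum_le (fun M => (neg_le_neg (hle M)).trans (neg_abs_le _)) hR.neg hA
      exact this
    · exact hasSum_le (fun M => (le_abs_self _).trans (hle M)) hA hR
  have h2 : 2 * C * Real.exp b *
      (Real.exp (-lam) * ((2 : ℝ) ^ (lam / 2) * Real.exp (lam / 2))) ≤
      2 * C * Real.exp (2 * b - t * D * Fintype.card V / 10) * B := by
    calc _ ≤ 2 * C * Real.exp b * Real.exp (-(lam / 10)) := by
          apply mul_le_mul_of_nonneg_left hsmall (by positivity)
      _ = 2 * C * Real.exp (2 * b - t * D * Fintype.card V / 10) * Real.exp (-b) := by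
          rw [mul_assoc, mul_assoc (2 * C) (Real.exp (2 * b - t * D * Fintype.card V / 10)),
            ← Real.exp_add, ← Real.exp_add, hlam]
          congr 2
          ring
      _ ≤ _ := mul_le_mul_of_nonneg_left hBlow (by positivity)
  calc |A| ≤ _ := h1
    _ ≤ η * B + 2 * C * Real.exp (2 * b - t * D * Fintype.card V / 10) * B := by linarith
    _ = _ := by ring

end Pool.Agent.Y941.RS
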